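import Pool.Agent.H.MP_12a1af_nt.A

set_option autoImplicit false
open Finset Filter Pool.Agent.H.MP_12a1af_nt

namespace Pool.Agent.Results.MP_12a1af_nt.LowComplexity

theorem result (A : Set ℕ)
    (hA : ∃ c : ℝ, 0 < c ∧ ∃ᶠ N : ℕ in atTop, c * Real.sqrt N ≤ {a | a < N ∧ a ∈ A}.ncard)
    (hp : ∀ ε : ℝ, 0 < ε → ∃ C : ℝ, ∀ n : ℕ, 1 ≤ n →
      ({F : Finset ℕ | ∃ t, ∀ i, i ∈ F ↔ i < n ∧ t + i ∈ A}.ncard : ℝ) ≤ C * (n : ℝ) ^ (1 + ε))
    (r : ℕ) :
    ∃ n : ℕ, r < ({p : ℕ × ℕ | p.1 ∈ A ∧ p.2 ∈ A ∧ p.1 + p.2 = n} : Set (ℕ × ℕ)).ncard := by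
  classical
  by_contra hc
  push Not at hc
  have fin : ∀ n, ({p : ℕ × ℕ | p.1 ∈ A ∧ p.2 ∈ A ∧ p.1 + p.2 = n} : Set (ℕ × ℕ)).Finite := fun n =>
    (antidiagonal n).finite_toSet.subset fun p hp => mem_coe.2 (mem_antidiagonal.2 hp.2.2)
  have bd : ∀ (n : ℕ) (s : Finset (ℕ × ℕ)), (∀ p ∈ s, p.1 ∈ A ∧ p.2 ∈ A ∧ p.1 + p.2 = n) → #s ≤ r :=
    fun n s h => by
      rw [← Set.ncard_coe_finset]
      exact (Set.ncard_le_ncard h (fin n)).trans (hc n)
  obtain ⟨c, c0, hL⟩ := hA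
  obtain ⟨Y, σ, h1, h2⟩ := core (A := A) (α := 1 / 2) (K := Real.sqrt (2 * r)) (by norm_num)
    (by norm_num) c0 (fun t n _ => by
      have := card_le_mul_card_image_of_maps_to (s := pat A t n ×ˢ pat A t n) (t := range (2 * n))
        (f := fun p => p.1 + p.2) (fun p hp => by
          simp only [mem_product, mem_pat] at hp
          exact mem_range.2 (by omega)) r fun b _ => by
          rw [← card_image_of_injective (f := fun p : ℕ × ℕ => (t + p.1, t + p.2)) _
            fun p q e => by simp only [Prod.mk.injEq] at e; ext <;> omega]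
          refine bd (2 * t + b) _ fun p hp => ?_
          obtain ⟨q, hq, rfl⟩ := mem_image.1 hp
          simp only [mem_filter, mem_product, mem_pat] at hq
          exact ⟨hq.1.1.2, hq.1.2.2, by simp only []; omega⟩
      rw [card_product, card_range] at this
      rw [← Real.sqrt_eq_rpow, ← Real.sqrt_mul (by positivity)]
      refine Real.le_sqrt_of_sq_le ?_
      have : (#(pat A t n) : ℝ) * #(pat A t n) ≤ r * (2 * n) := by exact_mod_cast this
      nlinarith)
    (hL.mono fun N h => by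
      rw [← Real.sqrt_eq_rpow]
      convert h
      rw [← Set.ncard_coe_finset]
      congr 1
      ext a
      simp [mem_pat])
    (fun ε h => by simpa only [PP_card] using hp ε h) r
  have := bd σ (Y.image fun y => (y, σ - y)) fun p hp => by
    obtain ⟨y, hy, rfl⟩ := mem_image.1 hp
    exact ⟨(h2 y hy).1, (h2 _ (h2 y hy).2.2).1, Nat.add_sub_cancel' (h2 y hy).2.1⟩
  rw [card_image_of_injective _ fun a b e => (Prod.ext_iff.1 e).1] at this
  omega

end Pool.Agent.Results.MP_12a1af_nt.LowComplexity
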